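import Pool.Agent.R59.Ferrers.Sat

/-!
MP_eab1c6_co: saturation and extremal numbers for the permutation matrix `J_s` and for strong
copies of the poset `∨_s` in the grid. All saturated families have the same size.
-/

namespace Pool.Agent.Results.MP_eab1c6_co.SaturationEqualsExtremal

open Pool.Agent.R59.Ferrers

/-- A 0-1 matrix with `m` rows and `n` columns, given by the set of positions of its ones. -/
abbrev Mat (m n : ℕ) := Finset (Fin m × Fin n)

/-- `A` contains the pattern `M`. -/
def Contains {m n k l : ℕ} (A : Mat m n) (M : Mat k l) : Prop :=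
  ∃ (f : Fin k → Fin m) (g : Fin l → Fin n), StrictMono f ∧ StrictMono g ∧
    ∀ x ∈ M, (f x.1, g x.2) ∈ A

/-- `A` is `M`-saturated. -/
def Saturated {m n k l : ℕ} (A : Mat m n) (M : Mat k l) : Prop :=
  ¬ Contains A M ∧ ∀ x, x ∉ A → Contains (insert x A) M

/-- `ex(m,n,M)`. -/
noncomputable def ex (m n : ℕ) {k l : ℕ} (M : Mat k l) : ℕ :=
  sSup {w | ∃ A : Mat m n, ¬ Contains A M ∧ A.card = w}

/-- `sat(m,n,M)`. -/
noncomputable def sat (m n : ℕ) {k l : ℕ} (M : Mat k l) : ℕ :=
  sInf {w | ∃ A : Mat m n, Saturated A M ∧ A.card = w}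

/-- The `s × s` matrix with ones at `(i, i+1)`, `1 ≤ i ≤ s - 1`, and `(s, 1)`
(indices here start at `0`). -/
def J (s : ℕ) : Mat s s :=
  Finset.univ.filter (fun x => x.1.val + 1 = x.2.val ∨ (x.1.val + 1 = s ∧ x.2.val = 0))

/-- `F ⊆ [m] × [n]` contains a strong copy of the set `P` ordered by `le`. -/
def StrongCopy {P : Type} (le : P → P → Prop) {m n : ℕ} (F : Finset (Fin m × Fin n)) : Prop :=
  ∃ f : P → Fin m × Fin n, Function.Injective f ∧ (∀ p, f p ∈ F) ∧
    ∀ p q, le p q ↔ ((f p).1 ≤ (f q).1 ∧ (f p).2 ≤ (f q).2)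

/-- `F` is strong saturated. -/
def StrongSaturated {P : Type} (le : P → P → Prop) {m n : ℕ} (F : Finset (Fin m × Fin n)) :
    Prop :=
  ¬ StrongCopy le F ∧ ∀ x, x ∉ F → StrongCopy le (insert x F)

/-- `La^*`. -/
noncomputable def LaStar (m n : ℕ) {P : Type} (le : P → P → Prop) : ℕ :=
  sSup {w | ∃ F : Finset (Fin m × Fin n), ¬ StrongCopy le F ∧ F.card = w}

/-- `sat^*`. -/
noncomputable def satStar (m n : ℕ) {P : Type} (le : P → P → Prop) : ℕ :=
  sInf {w | ∃ F : Finset (Fin m × Fin n), StrongSaturated le F ∧ F.card = w}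

/-- The order of the poset `∨_s` with elements `a = none` and `b_i = some i`: `a ≤` everything,
`b_i ≤ b_j` only for `i = j`. -/
def veeLe (s : ℕ) : Option (Fin s) → Option (Fin s) → Prop
  | none, _ => True
  | some _, none => False
  | some i, some j => i = j

/-! ### Translation of matrices -/

/-- The image of a matrix in `ℕ × ℕ`, columns reversed. -/
def imJ {m n : ℕ} (A : Mat m n) : Set (ℕ × ℕ) :=
  (fun x : Fin m × Fin n => ((x.1.val, n - 1 - x.2.val) : ℕ × ℕ)) '' (A : Set (Fin m × Fin n))

/-- The image of a subset of the grid, both coordinates reversed. -/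
def imV {m n : ℕ} (A : Mat m n) : Set (ℕ × ℕ) :=
  (fun x : Fin m × Fin n => ((m - 1 - x.1.val, n - 1 - x.2.val) : ℕ × ℕ)) ''
    (A : Set (Fin m × Fin n))

theorem imJ_inj (m n : ℕ) : Function.Injective
    (fun x : Fin m × Fin n => ((x.1.val, n - 1 - x.2.val) : ℕ × ℕ)) := by
  rintro ⟨a, b⟩ ⟨c, d⟩ h
  simp only [Prod.mk.injEq] at h
  ext
  · exact h.1
  · have := b.2; have := d.2
    show b.val = d.val
    omega

theorem imV_inj (m n : ℕ) : Function.Injective
    (fun x : Fin m × Fin n => ((m - 1 - x.1.val, n - 1 - x.2.val) : ℕ × ℕ)) := by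
  rintro ⟨a, b⟩ ⟨c, d⟩ h
  simp only [Prod.mk.injEq] at h
  ext
  · have := a.2; have := c.2
    show a.val = c.val
    omega
  · have := b.2; have := d.2
    show b.val = d.val
    omega

theorem imJ_card {m n : ℕ} (A : Mat m n) : (imJ A).ncard = A.card := by
  unfold imJ
  rw [Set.ncard_image_of_injective _ (imJ_inj m n), Set.ncard_coe_finset]

theorem imV_card {m n : ℕ} (A : Mat m n) : (imV A).ncard = A.card := by
  unfold imV
  rw [Set.ncard_image_of_injective _ (imV_inj m n), Set.ncard_coe_finset]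

theorem mem_imJ {m n : ℕ} (A : Mat m n) (p q : ℕ) :
    (p, q) ∈ imJ A ↔ ∃ (hp : p < m) (hq : q < n),
      ((⟨p, hp⟩, ⟨n - 1 - q, by omega⟩) : Fin m × Fin n) ∈ A := by
  unfold imJ
  constructor
  · rintro ⟨⟨a, b⟩, hx, he⟩
    simp only [Prod.mk.injEq] at he
    have ha := a.2
    have hb := b.2
    refine ⟨by omega, by omega, ?_⟩
    have e1 : (⟨p, by omega⟩ : Fin m) = a := Fin.ext he.1.symm
    have e2 : (⟨n - 1 - q, by omega⟩ : Fin n) = b := by
      apply Fin.ext
      show n - 1 - q = b.val
      omega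
    rw [e1, e2]
    exact hx
  · rintro ⟨hp, hq, h⟩
    refine ⟨_, h, ?_⟩
    simp only [Prod.mk.injEq, true_and]
    omega

theorem mem_imV {m n : ℕ} (A : Mat m n) (p q : ℕ) :
    (p, q) ∈ imV A ↔ ∃ (hp : p < m) (hq : q < n),
      ((⟨m - 1 - p, by omega⟩, ⟨n - 1 - q, by omega⟩) : Fin m × Fin n) ∈ A := by
  unfold imV
  constructor
  · rintro ⟨⟨a, b⟩, hx, he⟩
    simp only [Prod.mk.injEq] at he
    have ha := a.2
    have hb := b.2
    refine ⟨by omega, by omega, ?_⟩
    have e1 : (⟨m - 1 - p, by omega⟩ : Fin m) = a := by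
      apply Fin.ext
      show m - 1 - p = a.val
      omega
    have e2 : (⟨n - 1 - q, by omega⟩ : Fin n) = b := by
      apply Fin.ext
      show n - 1 - q = b.val
      omega
    rw [e1, e2]
    exact hx
  · rintro ⟨hp, hq, h⟩
    refine ⟨_, h, ?_⟩
    simp only [Prod.mk.injEq]
    omega

theorem imJ_insert {m n : ℕ} (A : Mat m n) (p q : ℕ) (hp : p < m) (hq : q < n) :
    imJ (insert ((⟨p, hp⟩, ⟨n - 1 - q, by omega⟩) : Fin m × Fin n) A) =
      insert (p, q) (imJ A) := by
  unfold imJ
  rw [Finset.coe_insert, Set.image_insert_eq]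
  congr 1
  simp only [Prod.mk.injEq, true_and]
  omega

theorem imV_insert {m n : ℕ} (A : Mat m n) (p q : ℕ) (hp : p < m) (hq : q < n) :
    imV (insert ((⟨m - 1 - p, by omega⟩, ⟨n - 1 - q, by omega⟩) : Fin m × Fin n) A) =
      insert (p, q) (imV A) := by
  unfold imV
  rw [Finset.coe_insert, Set.image_insert_eq]
  congr 1
  simp only [Prod.mk.injEq]
  omega

theorem contains_iff {m n κ : ℕ} (A : Mat m n) :
    Contains A (J (κ + 2)) ↔ ¬ JFree κ (imJ A) := by
  constructor
  · rintro ⟨f, g, hf, hg, hfg⟩ hfree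
    have h1 : (f (Fin.last (κ + 1)), g 0) ∈ A := by
      apply hfg (Fin.last (κ + 1), 0)
      simp [J]
    have hn : ∀ i : Fin (κ + 2), (g i).val < n := fun i => (g i).2
    have hmem : ((f (Fin.last (κ + 1))).val, n - 1 - (g 0).val) ∈ imJ A :=
      ⟨_, h1, rfl⟩
    apply hfree _ _ hmem
    obtain ⟨h, hh⟩ : ∃ h : ℕ → ℕ × ℕ, ∀ i (hi : i < κ + 1),
        h i = ((f ⟨i, by omega⟩).val, n - 1 - (g ⟨i + 1, by omega⟩).val) := by
      refine ⟨fun i => if hi : i < κ + 1 then
        ((f ⟨i, by omega⟩).val, n - 1 - (g ⟨i + 1, by omega⟩).val) else (0, 0), ?_⟩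
      intro i hi
      simp [hi]
    apply E_of_fun h
    · intro i hi
      rw [hh i hi]
      refine ⟨⟨_, hfg (⟨i, by omega⟩, ⟨i + 1, by omega⟩) (by simp [J]), rfl⟩, ?_,
        Nat.zero_le _, ?_⟩
      · have : f ⟨i, by omega⟩ < f (Fin.last (κ + 1)) := hf (by
          rw [Fin.lt_def]; simp only [Fin.val_last]; exact hi)
        exact this
      · have : g 0 < g ⟨i + 1, by omega⟩ := hg (by rw [Fin.lt_def]; simp)
        rw [Fin.lt_def] at this
        have := hn ⟨i + 1, by omega⟩
        show n - 1 - (g ⟨i + 1, by omega⟩).val < n - 1 - (g 0).val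
        omega
    · intro i j hij hj
      rw [hh i (by omega), hh j hj]
      have h2 : f ⟨i, by omega⟩ < f ⟨j, by omega⟩ := hf (by rw [Fin.lt_def]; exact hij)
      have h3 : g ⟨i + 1, by omega⟩ < g ⟨j + 1, by omega⟩ := hg (by
        rw [Fin.lt_def]; show i + 1 < j + 1; omega)
      rw [Fin.lt_def] at h2 h3
      have := hn ⟨j + 1, by omega⟩
      refine ⟨h2, ?_⟩
      show n - 1 - (g ⟨j + 1, by omega⟩).val < n - 1 - (g ⟨i + 1, by omega⟩).val
      omega
  · intro hfree
    unfold JFree at hfree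
    push Not at hfree
    obtain ⟨p, q, hpq, hE⟩ := hfree
    obtain ⟨h, h1, h2⟩ := E_to_fun hE
    obtain ⟨hp, hq, hpqA⟩ := (mem_imJ A p q).mp hpq
    have h3 : ∀ i, i < κ + 1 → ∃ (hp : (h i).1 < m) (hq : (h i).2 < n),
        ((⟨(h i).1, hp⟩, ⟨n - 1 - (h i).2, by omega⟩) : Fin m × Fin n) ∈ A := by
      intro i hi
      exact (mem_imJ A (h i).1 (h i).2).mp (h1 i hi).1
    have hn0 : 0 < n := by omega
    have hm0 : 0 < m := by omega
    refine ⟨fun i => ⟨if i.val < κ + 1 then (h i.val).1 else p, ?_⟩,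
      fun i => ⟨if i.val = 0 then n - 1 - q else n - 1 - (h (i.val - 1)).2, ?_⟩, ?_, ?_, ?_⟩
    · split_ifs with hi
      · exact (h3 i.val hi).1
      · exact hp
    · split_ifs <;> omega
    · intro i j hij
      rw [Fin.lt_def] at hij ⊢
      have hj := j.2
      show (if i.val < κ + 1 then (h i.val).1 else p) < (if j.val < κ + 1 then (h j.val).1 else p)
      rw [if_pos (by omega)]
      split_ifs with hj'
      · exact (h2 _ _ hij hj').1
      · exact (h1 i.val (by omega)).2.1
    · intro i j hij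
      rw [Fin.lt_def] at hij ⊢
      have hj := j.2
      show (if i.val = 0 then n - 1 - q else n - 1 - (h (i.val - 1)).2) <
        (if j.val = 0 then n - 1 - q else n - 1 - (h (j.val - 1)).2)
      rw [if_neg (by omega : ¬ j.val = 0)]
      split_ifs with hi'
      · have := (h1 (j.val - 1) (by omega)).2.2.2
        omega
      · have g1 := (h2 (i.val - 1) (j.val - 1) (by omega) (by omega)).2
        have g2 := (h3 (i.val - 1) (by omega)).2.1
        omega
    · have memtr : ∀ (a a' : Fin m) (b b' : Fin n), a.val = a'.val → b.val = b'.val →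
          (a', b') ∈ A → (a, b) ∈ A := by
        intro a a' b b' e1 e2 hh
        rw [Fin.ext e1, Fin.ext e2]; exact hh
      rintro ⟨i, j⟩ hij
      simp only [J, Finset.mem_filter, Finset.mem_univ, true_and] at hij
      rcases hij with hij | ⟨hi, hj⟩
      · have hj := j.2
        obtain ⟨g1, g2, g3⟩ := h3 i.val (by omega)
        refine memtr _ _ _ _ ?_ ?_ g3
        · show (if i.val < κ + 1 then (h i.val).1 else p) = (h i.val).1
          rw [if_pos (by omega)]
        · show (if j.val = 0 then n - 1 - q else n - 1 - (h (j.val - 1)).2) =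
            n - 1 - (h i.val).2
          rw [if_neg (by omega), show j.val - 1 = i.val by omega]
      · refine memtr _ _ _ _ ?_ ?_ hpqA
        · show (if i.val < κ + 1 then (h i.val).1 else p) = p
          rw [if_neg (by omega)]
        · show (if j.val = 0 then n - 1 - q else n - 1 - (h (j.val - 1)).2) = n - 1 - q
          rw [if_pos hj]

theorem strong_iff {m n κ : ℕ} (hκ : 1 ≤ κ) (A : Finset (Fin m × Fin n)) :
    StrongCopy (veeLe (κ + 1)) A ↔ ¬ VFree κ (imV A) := by
  constructor
  · rintro ⟨f, hinj, hmem, hle⟩ hfree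
    obtain ⟨φ, hφ⟩ : ∃ φ : Fin m × Fin n → ℕ × ℕ,
        φ = fun x => (m - 1 - x.1.val, n - 1 - x.2.val) := ⟨_, rfl⟩
    have hφinj : Function.Injective φ := by rw [hφ]; exact imV_inj m n
    have hφ1 : ∀ x, (φ x).1 = m - 1 - x.1.val := by intro x; rw [hφ]
    have hφ2 : ∀ x, (φ x).2 = n - 1 - x.2.val := by intro x; rw [hφ]
    have hmemV : ∀ x ∈ A, φ x ∈ imV A := by
      intro x hx; rw [hφ]; exact ⟨x, hx, rfl⟩
    apply hfree (φ (f none)).1 (φ (f none)).2 (hmemV _ (hmem none))
    apply E_of_finset (Finset.univ.image (fun i : Fin (κ + 1) => φ (f (some i))))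
    · rw [Finset.card_image_of_injective]
      · simp
      · intro i j hij
        have := hinj (hφinj hij)
        simpa using this
    · intro x hx
      simp only [Finset.mem_image, Finset.mem_univ, true_and] at hx
      obtain ⟨i, rfl⟩ := hx
      have h1 := (hle none (some i)).mp trivial
      rw [Fin.le_def, Fin.le_def] at h1
      refine ⟨hmemV _ (hmem _), ?_, Nat.zero_le _, ?_⟩
      · rw [hφ1, hφ1]; omega
      · rw [hφ2, hφ2]; omega
    · intro x hx y hy hxy
      simp only [Finset.mem_image, Finset.mem_univ, true_and] at hx hy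
      obtain ⟨i, rfl⟩ := hx
      obtain ⟨j, rfl⟩ := hy
      have hij : i ≠ j := by rintro rfl; exact hxy rfl
      have h1 := (hle (some i) (some j)).not.mp (by simpa [veeLe] using hij)
      have h2 := (hle (some j) (some i)).not.mp (by simpa [veeLe] using hij.symm)
      rw [Fin.le_def, Fin.le_def] at h1 h2
      rw [hφ1, hφ1, hφ2, hφ2]
      have b1 := (f (some i)).1.2
      have b2 := (f (some i)).2.2
      have b3 := (f (some j)).1.2
      have b4 := (f (some j)).2.2
      omega
  · intro hfree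
    unfold VFree at hfree
    push Not at hfree
    obtain ⟨p, q, hpq, hE⟩ := hfree
    obtain ⟨h, h1, h2⟩ := E_to_fun hE
    obtain ⟨hp, hq, hpqA⟩ := (mem_imV A p q).mp hpq
    have h3 : ∀ i, i < κ + 1 → ∃ (hp : (h i).1 < m) (hq : (h i).2 < n),
        ((⟨m - 1 - (h i).1, by omega⟩, ⟨n - 1 - (h i).2, by omega⟩) : Fin m × Fin n) ∈ A := by
      intro i hi
      exact (mem_imV A (h i).1 (h i).2).mp (h1 i hi).1
    have hn0 : 0 < n := by omega
    have hm0 : 0 < m := by omega
    obtain ⟨f, hf0, hf1⟩ : ∃ f : Option (Fin (κ + 1)) → Fin m × Fin n,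
        f none = (⟨m - 1 - p, by omega⟩, ⟨n - 1 - q, by omega⟩) ∧
        ∀ i : Fin (κ + 1), f (some i) =
          (⟨m - 1 - (h i.val).1, by omega⟩, ⟨n - 1 - (h i.val).2, by omega⟩) :=
      ⟨fun o => match o with
        | none => (⟨m - 1 - p, by omega⟩, ⟨n - 1 - q, by omega⟩)
        | some i => (⟨m - 1 - (h i.val).1, by omega⟩, ⟨n - 1 - (h i.val).2, by omega⟩),
        rfl, fun _ => rfl⟩
    have hne : ∀ i : Fin (κ + 1), ¬ ((h i.val).1 = p ∧ (h i.val).2 = q) := by
      rintro i ⟨e1, e2⟩
      by_cases hi : i.val = 0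
      · have g1 := h2 i.val (i.val + 1) (by omega) (by omega)
        have g2 := h1 (i.val + 1) (by omega)
        omega
      · have g1 := h2 (i.val - 1) i.val (by omega) i.2
        have g2 := h1 (i.val - 1) (by omega)
        omega
    have hle : ∀ x y, veeLe (κ + 1) x y ↔ ((f x).1 ≤ (f y).1 ∧ (f x).2 ≤ (f y).2) := by
      intro x y
      cases x with
      | none =>
        cases y with
        | none => simp [veeLe]
        | some j =>
          rw [hf0, hf1, Fin.le_def, Fin.le_def]
          have g1 := h1 j.val j.2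
          constructor
          · intro _
            show m - 1 - p ≤ m - 1 - (h j.val).1 ∧ n - 1 - q ≤ n - 1 - (h j.val).2
            omega
          · intro _; trivial
      | some i =>
        cases y with
        | none =>
          rw [hf0, hf1, Fin.le_def, Fin.le_def]
          have g1 := h1 i.val i.2
          constructor
          · intro hc; exact absurd hc (by simp [veeLe])
          · intro hc
            have hc' : m - 1 - (h i.val).1 ≤ m - 1 - p ∧ n - 1 - (h i.val).2 ≤ n - 1 - q := hc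
            exfalso
            apply hne i
            obtain ⟨g3, g4, _⟩ := h3 i.val i.2
            omega
        | some j =>
          rw [hf1, hf1, Fin.le_def, Fin.le_def]
          obtain ⟨g3, g4, _⟩ := h3 i.val i.2
          obtain ⟨g5, g6, _⟩ := h3 j.val j.2
          constructor
          · intro hc
            have : i = j := hc
            subst this
            exact ⟨le_rfl, le_rfl⟩
          · intro hc
            have hc' : m - 1 - (h i.val).1 ≤ m - 1 - (h j.val).1 ∧
              n - 1 - (h i.val).2 ≤ n - 1 - (h j.val).2 := hc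
            show i = j
            by_contra hij
            rcases lt_or_gt_of_ne hij with hlt | hlt
            · have g1 := h2 i.val j.val hlt j.2
              omega
            · have g1 := h2 j.val i.val hlt i.2
              omega
    refine ⟨f, ?_, ?_, hle⟩
    · intro x y hxy
      have g1 := (hle x y).mpr (by rw [hxy]; exact ⟨le_rfl, le_rfl⟩)
      have g2 := (hle y x).mpr (by rw [hxy]; exact ⟨le_rfl, le_rfl⟩)
      cases x with
      | none =>
        cases y with
        | none => rfl
        | some j => exact absurd g2 (by simp [veeLe])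
      | some i =>
        cases y with
        | none => exact absurd g1 (by simp [veeLe])
        | some j =>
          have : i = j := g1
          rw [this]
    · intro x
      cases x with
      | none => rw [hf0]; exact hpqA
      | some i =>
        rw [hf1]
        exact (h3 i.val i.2).2.2

/-- The common value. -/
def value (m n s : ℕ) : ℕ := if s ≤ m ∧ s ≤ n then (s - 1) * (m + n - s + 1) else m * n

theorem jsat_value {m n s : ℕ} (hs : 2 ≤ s) (A : Mat m n) (hA : Saturated A (J s)) :
    A.card = value m n s := by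
  obtain ⟨κ, rfl⟩ : ∃ κ, s = κ + 2 := ⟨s - 2, by omega⟩
  obtain ⟨h1, h2⟩ := hA
  rw [contains_iff, not_not] at h1
  have hgrid : ∀ p q, (p, q) ∈ imJ A → p < m ∧ q < n := by
    intro p q h
    obtain ⟨hp, hq, _⟩ := (mem_imJ A p q).mp h
    exact ⟨hp, hq⟩
  have hsat : ∀ p q, p < m → q < n → (p, q) ∉ imJ A → ¬ JFree κ (insert (p, q) (imJ A)) := by
    intro p q hp hq hpq
    have h3 := h2 (⟨p, hp⟩, ⟨n - 1 - q, by omega⟩) (fun hmem => hpq
      ((mem_imJ A p q).mpr ⟨hp, hq, hmem⟩))
    rw [contains_iff, imJ_insert A p q hp hq] at h3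
    exact h3
  unfold value
  by_cases hbig : κ + 1 ≤ m ∧ κ + 1 ≤ n
  · have h3 := jsat_card hbig.1 hbig.2 hgrid h1 hsat
    rw [imJ_card] at h3
    rw [h3]
    split_ifs with h4
    · congr 1
      omega
    · have h5 : m = κ + 1 ∨ n = κ + 1 := by omega
      rcases h5 with h5 | h5
      · rw [h5, Nat.add_sub_cancel_left]
      · rw [h5, Nat.add_sub_cancel, Nat.mul_comm]
  · rw [if_neg (by omega)]
    have hall : A = Finset.univ := by
      by_contra hne
      obtain ⟨x, hx⟩ : ∃ x, x ∉ A := by
        by_contra hc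
        push Not at hc
        exact hne (Finset.eq_univ_iff_forall.mpr hc)
      obtain ⟨f, g, hf, hg, _⟩ := h2 x hx
      have h3 := Fintype.card_le_of_injective f hf.injective
      have h4 := Fintype.card_le_of_injective g hg.injective
      rw [Fintype.card_fin, Fintype.card_fin] at h3 h4
      omega
    rw [hall]
    simp

theorem vsat_value {m n s : ℕ} (hs : 2 ≤ s) (A : Finset (Fin m × Fin n))
    (hA : StrongSaturated (veeLe s) A) : A.card = value m n s := by
  obtain ⟨κ, rfl⟩ : ∃ κ, s = κ + 1 := ⟨s - 1, by omega⟩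
  obtain ⟨h1, h2⟩ := hA
  rw [strong_iff (by omega), not_not] at h1
  have hgrid : ∀ p q, (p, q) ∈ imV A → p < m ∧ q < n := by
    intro p q h
    obtain ⟨hp, hq, _⟩ := (mem_imV A p q).mp h
    exact ⟨hp, hq⟩
  have hsat : ∀ p q, p < m → q < n → (p, q) ∉ imV A → ¬ VFree κ (insert (p, q) (imV A)) := by
    intro p q hp hq hpq
    have h3 := h2 (⟨m - 1 - p, by omega⟩, ⟨n - 1 - q, by omega⟩) (fun hmem => hpq
      ((mem_imV A p q).mpr ⟨hp, hq, hmem⟩))
    rw [strong_iff (by omega), imV_insert A p q hp hq] at h3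
    exact h3
  unfold value
  by_cases hbig : κ ≤ m ∧ κ ≤ n
  · have h3 := vsat_card hbig.1 hbig.2 hgrid h1 hsat
    rw [imV_card] at h3
    rw [h3]
    split_ifs with h4
    · congr 1
      omega
    · have h5 : m = κ ∨ n = κ := by omega
      rcases h5 with h5 | h5
      · rw [h5, Nat.add_sub_cancel_left]
      · rw [h5, Nat.add_sub_cancel, Nat.mul_comm]
  · rw [if_neg (by omega)]
    have hall : A = Finset.univ := by
      by_contra hne
      obtain ⟨x, hx⟩ : ∃ x, x ∉ A := by
        by_contra hc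
        push Not at hc
        exact hne (Finset.eq_univ_iff_forall.mpr hc)
      have h3 := h2 x hx
      rw [strong_iff (by omega)] at h3
      apply h3
      intro p q hpq hE
      have h4 := E_le_row hE
      have h5 := E_le_col hE (Nat.zero_le _)
      obtain ⟨hp, hq, _⟩ := (mem_imV _ p q).mp hpq
      omega
    rw [hall]
    simp

/-- Maximal families for a monotone property. -/
theorem exists_sat {α : Type} [Fintype α] [DecidableEq α] (Q : Finset α → Prop)
    (h0 : ∃ A, Q A) : ∃ A, Q A ∧ (∀ x, x ∉ A → ¬ Q (insert x A)) ∧ ∀ B, Q B → B.card ≤ A.card := by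
  classical
  obtain ⟨A, hA, hmax⟩ := Finset.exists_max_image (Finset.univ.filter Q) Finset.card
    (by obtain ⟨A, hA⟩ := h0; exact ⟨A, by simpa using hA⟩)
  simp only [Finset.mem_filter, Finset.mem_univ, true_and] at hA hmax
  refine ⟨A, hA, ?_, hmax⟩
  intro x hx hQ
  have := hmax _ hQ
  rw [Finset.card_insert_of_notMem hx] at this
  omega

/-- **Main result.** For all `s ≥ 2` and all `m, n` every `J_s`-saturated `m × n` matrix and every
strong `∨_s`-saturated subset of `[m] × [n]` has exactly `(s-1)(m+n-s+1)` elements if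
`s ≤ min(m,n)` and `mn` elements otherwise; hence
`sat(m,n,J_s) = ex(m,n,J_s) = sat^*([m]×[n],∨_s) = La^*([m]×[n],∨_s)`, in particular for `m = n`
and `s ≥ 3`. -/
theorem result (s m n : ℕ) (hs : 2 ≤ s) :
    (∀ A : Mat m n, Saturated A (J s) → A.card = value m n s) ∧
    (∀ F : Finset (Fin m × Fin n), StrongSaturated (veeLe s) F → F.card = value m n s) ∧
    sat m n (J s) = value m n s ∧ ex m n (J s) = value m n s ∧
    satStar m n (veeLe s) = value m n s ∧ LaStar m n (veeLe s) = value m n s := by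
  have hJ0 : ¬ Contains (∅ : Mat m n) (J s) := by
    rintro ⟨f, g, _, _, h⟩
    have := h (⟨s - 1, by omega⟩, ⟨0, by omega⟩) (Finset.mem_filter.mpr
      ⟨Finset.mem_univ _, Or.inr ⟨show s - 1 + 1 = s by omega, rfl⟩⟩)
    simp at this
  have hV0 : ¬ StrongCopy (veeLe s) (∅ : Finset (Fin m × Fin n)) := by
    rintro ⟨f, _, h, _⟩
    have := h none
    simp at this
  obtain ⟨A, hA1, hA2, hA3⟩ := exists_sat (fun A : Mat m n => ¬ Contains A (J s)) ⟨∅, hJ0⟩
  obtain ⟨F, hF1, hF2, hF3⟩ := exists_sat
    (fun A : Finset (Fin m × Fin n) => ¬ StrongCopy (veeLe s) A) ⟨∅, hV0⟩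
  have hAs : Saturated A (J s) := ⟨hA1, fun x hx => by
    have := hA2 x hx; rwa [not_not] at this⟩
  have hFs : StrongSaturated (veeLe s) F := ⟨hF1, fun x hx => by
    have := hF2 x hx; rwa [not_not] at this⟩
  have hAc := jsat_value hs A hAs
  have hFc := vsat_value hs F hFs
  refine ⟨fun A hA => jsat_value hs A hA, fun F hF => vsat_value hs F hF, ?_, ?_, ?_, ?_⟩
  · apply le_antisymm
    · exact Nat.sInf_le ⟨A, hAs, hAc⟩
    · have hne : {w | ∃ A : Mat m n, Saturated A (J s) ∧ A.card = w}.Nonempty := ⟨_, A, hAs, rfl⟩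
      obtain ⟨B, hB, hBc⟩ := Nat.sInf_mem hne
      have := jsat_value hs B hB
      unfold sat
      omega
  · apply le_antisymm
    · have hne : {w | ∃ A : Mat m n, ¬ Contains A (J s) ∧ A.card = w}.Nonempty :=
        ⟨_, A, hA1, rfl⟩
      apply csSup_le hne
      rintro w ⟨B, hB, rfl⟩
      rw [← hAc]; exact hA3 B hB
    · apply le_csSup
      · refine ⟨A.card, ?_⟩
        rintro w ⟨B, hB, rfl⟩
        exact hA3 B hB
      · exact ⟨A, hA1, hAc⟩
  · apply le_antisymm
    · exact Nat.sInf_le ⟨F, hFs, hFc⟩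
    · have hne : {w | ∃ F : Finset (Fin m × Fin n), StrongSaturated (veeLe s) F ∧
          F.card = w}.Nonempty := ⟨_, F, hFs, rfl⟩
      obtain ⟨B, hB, hBc⟩ := Nat.sInf_mem hne
      have := vsat_value hs B hB
      unfold satStar
      omega
  · apply le_antisymm
    · have hne : {w | ∃ F : Finset (Fin m × Fin n), ¬ StrongCopy (veeLe s) F ∧
          F.card = w}.Nonempty := ⟨_, F, hF1, rfl⟩
      apply csSup_le hne
      rintro w ⟨B, hB, rfl⟩
      rw [← hFc]; exact hF3 B hB
    · apply le_csSup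
      · refine ⟨F.card, ?_⟩
        rintro w ⟨B, hB, rfl⟩
        exact hF3 B hB
      · exact ⟨F, hF1, hFc⟩

end Pool.Agent.Results.MP_eab1c6_co.SaturationEqualsExtremal
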